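import Pool.Agent.Y167.Dom

/-!
# From a closed convex pointed cone with nonempty interior to `CData`
-/

set_option autoImplicit false

namespace Pool.Agent.N165.KM

open Pool.Agent.Y167 Topology

/-- The integral vectors of `ℝ^ρ`. -/
def IntL (ρ : ℕ) : AddSubgroup (Fin ρ → ℝ) where
  carrier := {x | ∀ i, ∃ m : ℤ, x i = m}
  add_mem' := by
    intro x y hx hy i
    obtain ⟨m, hm⟩ := hx i
    obtain ⟨n, hn⟩ := hy i
    exact ⟨m + n, by rw [Pi.add_apply, hm, hn]; push_cast; ring⟩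
  zero_mem' := fun i => ⟨0, by simp⟩
  neg_mem' := by
    intro x hx i
    obtain ⟨m, hm⟩ := hx i
    exact ⟨-m, by rw [Pi.neg_apply, hm]; push_cast; ring⟩

theorem mem_IntL {ρ : ℕ} {x : Fin ρ → ℝ} : x ∈ IntL ρ ↔ ∀ i, ∃ m : ℤ, x i = m := Iff.rfl

section Pos

variable {ρ : ℕ} {C : Set (Fin ρ → ℝ)}

/-- A functional which is nonnegative on `C` and positive at `x`. -/
theorem exists_functional (hcl : IsClosed C) (hadd : ∀ x ∈ C, ∀ y ∈ C, x + y ∈ C)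
    (hsmul : ∀ t : ℝ, 0 ≤ t → ∀ x ∈ C, t • x ∈ C) (hpt : ∀ x ∈ C, -x ∈ C → x = 0)
    (x : Fin ρ → ℝ) (hx : x ∈ C) (hx0 : x ≠ 0) :
    ∃ f : (Fin ρ → ℝ) →L[ℝ] ℝ, (∀ y ∈ C, 0 ≤ f y) ∧ 0 < f x := by
  have hconv : Convex ℝ C := by
    intro a ha b hb s t hs ht _
    exact hadd _ (hsmul s hs a ha) _ (hsmul t ht b hb)
  have hnot : -x ∉ C := fun h => hx0 (hpt x hx h)
  obtain ⟨f, u, h1, h2⟩ := geometric_hahn_banach_point_closed hconv hcl hnot
  have h0 : (0 : Fin ρ → ℝ) ∈ C := by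
    have := hsmul 0 le_rfl x hx
    rwa [zero_smul] at this
  have hu : u < 0 := by
    have := h2 0 h0
    rwa [map_zero] at this
  refine ⟨f, fun y hy => ?_, ?_⟩
  · by_contra hneg
    push Not at hneg
    have h3 := h2 ((u / f y) • y) (hsmul _ (div_nonneg_of_nonpos hu.le hneg.le) y hy)
    rw [map_smul, smul_eq_mul, div_mul_cancel₀ _ hneg.ne] at h3
    exact lt_irrefl _ h3
  · rw [map_neg] at h1
    linarith

/-- A functional bounded below by a multiple of the norm. -/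
theorem exists_pos_functional (hcl : IsClosed C) (hadd : ∀ x ∈ C, ∀ y ∈ C, x + y ∈ C)
    (hsmul : ∀ t : ℝ, 0 ≤ t → ∀ x ∈ C, t • x ∈ C) (hpt : ∀ x ∈ C, -x ∈ C → x = 0) :
    ∃ (f : (Fin ρ → ℝ) →L[ℝ] ℝ) (c : ℝ), 0 < c ∧ ∀ x ∈ C, c * ‖x‖ ≤ f x := by
  classical
  let K : Set (Fin ρ → ℝ) := C ∩ Metric.sphere 0 1
  have hK : IsCompact K := (isCompact_sphere 0 1).inter_left hcl
  have hKx : ∀ x ∈ K, ∃ f : (Fin ρ → ℝ) →L[ℝ] ℝ, (∀ y ∈ C, 0 ≤ f y) ∧ 0 < f x := by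
    rintro x ⟨hx, hx1⟩
    refine exists_functional hcl hadd hsmul hpt x hx ?_
    rintro rfl
    simp at hx1
  choose! f hf hfx using hKx
  obtain ⟨t, htK, hcov⟩ := hK.elim_nhds_subcover (fun x => {y | 0 < f x y})
    (fun x hx => (isOpen_lt continuous_const (f x).continuous).mem_nhds (hfx x hx))
  let g : (Fin ρ → ℝ) →L[ℝ] ℝ := ∑ x ∈ t, f x
  have hg : ∀ y, g y = ∑ x ∈ t, f x y := fun y => by
    simp only [g, ContinuousLinearMap.sum_apply]
  have hgpos : ∀ y ∈ K, 0 < g y := by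
    intro y hy
    rw [hg]
    obtain ⟨x, hx, hyx⟩ : ∃ x ∈ t, 0 < f x y := by
      have := hcov hy
      simpa using this
    exact Finset.sum_pos' (fun z hz => hf z (htK z hz) y hy.1) ⟨x, hx, hyx⟩
  by_cases hne : K.Nonempty
  · obtain ⟨z, hz, hmin⟩ := hK.exists_isMinOn hne g.continuous.continuousOn
    refine ⟨g, g z, hgpos z hz, fun x hx => ?_⟩
    by_cases hx0 : x = 0
    · rw [hx0]; simp
    · have hn : 0 < ‖x‖ := norm_pos_iff.2 hx0
      have h1 : ‖x‖⁻¹ • x ∈ K := by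
        refine ⟨hsmul _ (inv_nonneg.2 hn.le) x hx, ?_⟩
        rw [mem_sphere_zero_iff_norm, norm_smul, norm_inv, norm_norm, inv_mul_cancel₀ hn.ne']
      have h2 : g z ≤ g (‖x‖⁻¹ • x) := hmin h1
      rw [map_smul, smul_eq_mul] at h2
      calc g z * ‖x‖ ≤ (‖x‖⁻¹ * g x) * ‖x‖ := mul_le_mul_of_nonneg_right h2 hn.le
        _ = g x := by field_simp
  · refine ⟨g, 1, one_pos, fun x hx => ?_⟩
    by_cases hx0 : x = 0
    · rw [hx0]; simp
    · exfalso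
      have hn : 0 < ‖x‖ := norm_pos_iff.2 hx0
      exact hne ⟨‖x‖⁻¹ • x, hsmul _ (inv_nonneg.2 hn.le) x hx, by
        rw [mem_sphere_zero_iff_norm, norm_smul, norm_inv, norm_norm, inv_mul_cancel₀ hn.ne']⟩

/-- An integral functional bounded below by the norm. -/
theorem exists_int_functional (hcl : IsClosed C) (hadd : ∀ x ∈ C, ∀ y ∈ C, x + y ∈ C)
    (hsmul : ∀ t : ℝ, 0 ≤ t → ∀ x ∈ C, t • x ∈ C) (hpt : ∀ x ∈ C, -x ∈ C → x = 0) :
    ∃ ξ : (Fin ρ → ℝ) →ₗ[ℝ] ℝ, (∀ x ∈ IntL ρ, ∃ n : ℤ, ξ x = n) ∧ ∀ x ∈ C, ‖x‖ ≤ ξ x := by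
  classical
  obtain ⟨f, c, hc, hf⟩ := exists_pos_functional hcl hadd hsmul hpt
  obtain ⟨M, hM⟩ := exists_nat_ge ((ρ + 1) / c)
  have hMc : (ρ : ℝ) + 1 ≤ M * c := by
    rwa [div_le_iff₀ hc] at hM
  let m : Fin ρ → ℤ := fun i => round ((M : ℝ) * f (Pi.single i 1))
  let ξ : (Fin ρ → ℝ) →ₗ[ℝ] ℝ := ∑ i, (m i : ℝ) • LinearMap.proj i
  have hξ : ∀ x, ξ x = ∑ i, (m i : ℝ) * x i := fun x => by
    simp [ξ]
  have hfx : ∀ x : Fin ρ → ℝ, f x = ∑ i, x i * f (Pi.single i 1) := by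
    intro x
    conv_lhs => rw [← Finset.univ_sum_single x]
    rw [map_sum]
    refine Finset.sum_congr rfl fun i _ => ?_
    have : (Pi.single i (x i) : Fin ρ → ℝ) = x i • Pi.single i 1 := by
      rw [← Pi.single_smul, smul_eq_mul, mul_one]
    rw [this, map_smul, smul_eq_mul]
  refine ⟨ξ, ?_, ?_⟩
  · intro x hx
    choose n hn using (mem_IntL.1 hx)
    refine ⟨∑ i, m i * n i, ?_⟩
    rw [hξ]
    push_cast
    exact Finset.sum_congr rfl fun i _ => by rw [hn]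
  · intro x hx
    have h1 : |ξ x - M * f x| ≤ ρ * ‖x‖ := by
      rw [hξ, hfx, Finset.mul_sum, ← Finset.sum_sub_distrib]
      refine (Finset.abs_sum_le_sum_abs _ _).trans ?_
      have h2 : ∀ i ∈ (Finset.univ : Finset (Fin ρ)),
          |(m i : ℝ) * x i - M * (x i * f (Pi.single i 1))| ≤ ‖x‖ := by
        intro i _
        have h3 : (m i : ℝ) * x i - M * (x i * f (Pi.single i 1)) =
            -(((M : ℝ) * f (Pi.single i 1) - m i) * x i) := by ring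
        rw [h3, abs_neg, abs_mul]
        have h4 : |(M : ℝ) * f (Pi.single i 1) - m i| ≤ 1 / 2 := abs_sub_round _
        have h5 : |x i| ≤ ‖x‖ := by
          have := norm_le_pi_norm x i
          rwa [Real.norm_eq_abs] at this
        calc |(M : ℝ) * f (Pi.single i 1) - m i| * |x i| ≤ (1 / 2) * ‖x‖ :=
              mul_le_mul h4 h5 (abs_nonneg _) (by norm_num)
          _ ≤ ‖x‖ := by have := norm_nonneg x; linarith
      refine (Finset.sum_le_sum h2).trans ?_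
      simp
    have h2 := (abs_le.1 h1).1
    have h3 := hf x hx
    have h4 : (M : ℝ) * (c * ‖x‖) ≤ M * f x := mul_le_mul_of_nonneg_left h3 (Nat.cast_nonneg _)
    have h5 := mul_le_mul_of_nonneg_right hMc (norm_nonneg x)
    nlinarith [norm_nonneg x]

end Pos

section Interior

variable {ρ : ℕ} {C : Set (Fin ρ → ℝ)}

theorem interior_smul_mem (hsmul : ∀ t : ℝ, 0 ≤ t → ∀ x ∈ C, t • x ∈ C) {t : ℝ} (ht : 0 < t)
    {x : Fin ρ → ℝ} (hx : x ∈ interior C) : t • x ∈ interior C := by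
  rw [mem_interior] at hx ⊢
  obtain ⟨U, hU, hUo, hxU⟩ := hx
  refine ⟨(fun y => t⁻¹ • y) ⁻¹' U, ?_, hUo.preimage (continuous_const_smul _), ?_⟩
  · intro y hy
    have h1 := hsmul t ht.le _ (hU hy)
    simp only [smul_smul, mul_inv_cancel₀ ht.ne', one_smul] at h1
    exact h1
  · simp only [Set.mem_preimage, smul_smul, inv_mul_cancel₀ ht.ne', one_smul]
    exact hxU

theorem interior_add_mem (hadd : ∀ x ∈ C, ∀ y ∈ C, x + y ∈ C)
    {x y : Fin ρ → ℝ} (hx : x ∈ interior C) (hy : y ∈ C) : x + y ∈ interior C := by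
  rw [mem_interior] at hx ⊢
  obtain ⟨U, hU, hUo, hxU⟩ := hx
  refine ⟨(fun z => z - y) ⁻¹' U, ?_, hUo.preimage (continuous_id.sub continuous_const), ?_⟩
  · intro z hz
    have h1 := hadd _ (hU hz) y hy
    simpa using h1
  · simpa using hxU

/-- Interior points can be moved slightly in every direction. -/
theorem interior_sub {x : Fin ρ → ℝ} (hx : x ∈ interior C) (v : Fin ρ → ℝ) :
    ∃ t : ℝ, 0 < t ∧ x - t • v ∈ interior C := by
  have h1 : Filter.Tendsto (fun t : ℝ => x - t • v) (𝓝[>] 0) (𝓝 (x - (0 : ℝ) • v)) := by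
    have : Continuous fun t : ℝ => x - t • v := by fun_prop
    exact (this.tendsto 0).mono_left nhdsWithin_le_nhds
  rw [zero_smul, sub_zero] at h1
  have h2 : ∀ᶠ t : ℝ in 𝓝[>] 0, x - t • v ∈ interior C :=
    h1 (isOpen_interior.mem_nhds hx)
  obtain ⟨t, ht, ht0⟩ := (h2.and self_mem_nhdsWithin).exists
  exact ⟨t, ht0, ht⟩

/-- An integral interior point. -/
theorem exists_int_interior (hsmul : ∀ t : ℝ, 0 ≤ t → ∀ x ∈ C, t • x ∈ C)
    (hint : (interior C).Nonempty) : ∃ y ∈ interior C, y ∈ IntL ρ := by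
  obtain ⟨y, hy⟩ := hint
  obtain ⟨r, hr, hball⟩ := Metric.isOpen_iff.1 isOpen_interior y hy
  obtain ⟨M, hM⟩ := exists_nat_gt (1 / r)
  have hM0 : (0 : ℝ) < M := lt_trans (by positivity) hM
  have hMr : 1 < M * r := by
    rw [div_lt_iff₀ hr] at hM
    exact hM
  let z : Fin ρ → ℝ := fun i => round ((M : ℝ) * y i)
  have hz : (M : ℝ)⁻¹ • z ∈ interior C := by
    apply hball
    rw [mem_ball_iff_norm]
    have h1 : ‖z - (M : ℝ) • y‖ ≤ 1 := by
      rw [pi_norm_le_iff_of_nonneg zero_le_one]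
      intro i
      have : (z - (M : ℝ) • y) i = -((M : ℝ) * y i - round ((M : ℝ) * y i)) := by
        simp [z]
      rw [this, norm_neg, Real.norm_eq_abs]
      have := abs_sub_round ((M : ℝ) * y i)
      linarith
    have h2 : (M : ℝ)⁻¹ • z - y = (M : ℝ)⁻¹ • (z - (M : ℝ) • y) := by
      rw [smul_sub, smul_smul, inv_mul_cancel₀ hM0.ne', one_smul]
    rw [h2, norm_smul, norm_inv, Real.norm_eq_abs, abs_of_pos hM0]
    calc (M : ℝ)⁻¹ * ‖z - (M : ℝ) • y‖ ≤ (M : ℝ)⁻¹ * 1 :=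
          mul_le_mul_of_nonneg_left h1 (inv_nonneg.2 hM0.le)
      _ < r := by rw [mul_one, inv_lt_iff_one_lt_mul₀ hM0]; linarith
  refine ⟨z, ?_, fun i => ⟨_, rfl⟩⟩
  have h3 := interior_smul_mem hsmul hM0 hz
  rwa [smul_smul, mul_inv_cancel₀ hM0.ne', one_smul] at h3

end Interior

/-- A convex cone `Nf` between the interior of `C` and `C`. -/
structure Sandwich {ρ : ℕ} (C Nf : Set (Fin ρ → ℝ)) : Prop where
  closed : IsClosed C
  add : ∀ x ∈ C, ∀ y ∈ C, x + y ∈ C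
  smul : ∀ t : ℝ, 0 ≤ t → ∀ x ∈ C, t • x ∈ C
  pointed : ∀ x ∈ C, -x ∈ C → x = 0
  int : (interior C).Nonempty
  Nsub : Nf ⊆ C
  Nint : interior C ⊆ Nf
  Nadd : ∀ x ∈ Nf, ∀ y ∈ Nf, x + y ∈ Nf
  Nsmul : ∀ t : ℝ, 0 ≤ t → ∀ x ∈ Nf, t • x ∈ Nf

theorem finite_bdd {ρ : ℕ} (B : ℝ) : {x : Fin ρ → ℝ | x ∈ IntL ρ ∧ ‖x‖ ≤ B}.Finite := by
  have h1 : (Set.pi Set.univ fun _ : Fin ρ => ((fun m : ℤ => (m : ℝ)) '' Set.Icc (-⌈B⌉) ⌈B⌉)).Finite :=
    Set.Finite.pi fun _ => (Set.finite_Icc _ _).image _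
  refine h1.subset ?_
  rintro x ⟨hx, hxB⟩ i -
  obtain ⟨m, hm⟩ := hx i
  refine ⟨m, ?_, hm.symm⟩
  have h2 : |x i| ≤ B := by
    have := norm_le_pi_norm x i
    rw [Real.norm_eq_abs] at this
    exact this.trans hxB
  rw [hm, abs_le] at h2
  have h3 := Int.le_ceil B
  constructor
  · have : (-(⌈B⌉ : ℤ) : ℝ) ≤ m := by linarith [h2.1]
    exact_mod_cast this
  · have : (m : ℝ) ≤ ⌈B⌉ := by linarith [h2.2]
    exact_mod_cast this

theorem exists_cdata {ρ : ℕ} {C Nf : Set (Fin ρ → ℝ)} (h : Sandwich C Nf) :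
    ∃ (ξ₀ : (Fin ρ → ℝ) →ₗ[ℝ] ℝ) (y₀ : Fin ρ → ℝ) (Y : Finset (Fin ρ → ℝ)),
      CData (IntL ρ) Nf ξ₀ y₀ Y ∧ y₀ ∈ interior C := by
  classical
  obtain ⟨ξ, hξ, hξC⟩ := exists_int_functional h.closed h.add h.smul h.pointed
  obtain ⟨y₀, hy₀, hy₀L⟩ := exists_int_interior h.smul h.int
  have hy_int : ∀ x : Fin ρ → ℝ, ∃ K : ℝ, 0 < K ∧ K • y₀ - x ∈ Nf := by
    intro x
    obtain ⟨t, ht, hx⟩ := interior_sub hy₀ x
    refine ⟨t⁻¹, inv_pos.2 ht, ?_⟩
    have h1 := h.Nsmul t⁻¹ (inv_nonneg.2 ht.le) _ (h.Nint hx)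
    rwa [smul_sub, smul_smul, inv_mul_cancel₀ ht.ne', one_smul] at h1
  have hk : ∀ i : Fin ρ, ∃ k : ℕ, (k : ℝ) • y₀ + (Pi.single i 1 : Fin ρ → ℝ) ∈ Nf := by
    intro i
    obtain ⟨K, hK, hx⟩ := hy_int (-(Pi.single i 1 : Fin ρ → ℝ))
    rw [sub_neg_eq_add] at hx
    obtain ⟨k, hkK⟩ := exists_nat_ge K
    refine ⟨k, ?_⟩
    have h1 := h.Nadd _ (h.Nsmul (k - K) (sub_nonneg.2 hkK) _ (h.Nint hy₀)) _ hx
    rwa [← add_assoc, ← add_smul, sub_add_cancel] at h1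
  choose k hk using hk
  refine ⟨ξ, y₀, insert y₀ (Finset.univ.image fun i : Fin ρ =>
    (k i : ℝ) • y₀ + (Pi.single i 1 : Fin ρ → ℝ)), ?_, hy₀⟩
  have hsingle : ∀ i : Fin ρ, (Pi.single i 1 : Fin ρ → ℝ) ∈ IntL ρ := by
    intro i j
    by_cases hij : j = i
    · subst hij; exact ⟨1, by simp⟩
    · exact ⟨0, by simp [hij]⟩
  refine
    { add := h.Nadd
      smul := h.Nsmul
      xi_int := hξ
      xi_pos := fun x hx h0 => lt_of_lt_of_le (norm_pos_iff.2 h0) (hξC x (h.Nsub hx))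
      fin := fun B => (finite_bdd B).subset fun x hx => ⟨hx.1, (hξC x (h.Nsub hx.2.1)).trans hx.2.2⟩
      y_L := hy₀L
      y_N := h.Nint hy₀
      y_int := hy_int
      dom := ?_
      sep := ?_
      Y_mem := ?_
      Y_span := ?_ }
  · intro η
    refine ⟨∑ i, |η (Pi.single i 1)|, fun x hx => ?_⟩
    have h1 : η x = ∑ i, x i * η (Pi.single i 1) := by
      conv_lhs => rw [← Finset.univ_sum_single x]
      rw [map_sum]
      refine Finset.sum_congr rfl fun i _ => ?_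
      have : (Pi.single i (x i) : Fin ρ → ℝ) = x i • Pi.single i 1 := by
        rw [← Pi.single_smul, smul_eq_mul, mul_one]
      rw [this, map_smul, smul_eq_mul]
    rw [h1, Finset.sum_mul]
    refine (Finset.abs_sum_le_sum_abs _ _).trans (Finset.sum_le_sum fun i _ => ?_)
    rw [abs_mul, mul_comm]
    refine mul_le_mul_of_nonneg_left ?_ (abs_nonneg _)
    have := norm_le_pi_norm x i
    rw [Real.norm_eq_abs] at this
    exact this.trans (hξC x (h.Nsub hx))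
  · intro x hx
    obtain ⟨i, hi⟩ := Function.ne_iff.1 hx
    exact ⟨LinearMap.proj i, fun y hy => hy i, hi⟩
  · intro y hy
    rcases Finset.mem_insert.1 hy with rfl | hy
    · exact ⟨hy₀L, h.Nint hy₀⟩
    · obtain ⟨i, -, rfl⟩ := Finset.mem_image.1 hy
      refine ⟨(IntL ρ).add_mem ?_ (hsingle i), hk i⟩
      rw [Nat.cast_smul_eq_nsmul]
      exact (IntL ρ).nsmul_mem hy₀L _
  · intro φ hφ
    have h0 : φ y₀ = 0 := hφ _ (Finset.mem_insert_self _ _)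
    refine LinearMap.pi_ext' fun i => LinearMap.ext_ring ?_
    have h1 := hφ _ (Finset.mem_insert_of_mem (Finset.mem_image_of_mem
      (fun i : Fin ρ => (k i : ℝ) • y₀ + (Pi.single i 1 : Fin ρ → ℝ)) (Finset.mem_univ i)))
    simp only [map_add, map_smul, h0, smul_zero, zero_add] at h1
    simpa using h1

end Pool.Agent.N165.KM
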