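import Pool.Agent.Y167.Dom

/-!
# A Dirichlet-type cone and the finiteness of the stabilisers which occur in it
-/

set_option autoImplicit false

namespace Pool.Agent.N165.KM

open Pool.Agent.Y167 Pool.Agent.Y167.CData Topology

variable {W : Type*} [AddCommGroup W] [Module ℝ W]
variable {L : AddSubgroup W} {Nf : Set W} {ξ₀ : W →ₗ[ℝ] ℝ} {y₀ : W} {Y : Finset W}

theorem dirichlet (D : CData L Nf ξ₀ y₀ Y) (𝒢 : Subgroup (W ≃ₗ[ℝ] W))
    (hL : ∀ g ∈ 𝒢, ∀ x ∈ L, g x ∈ L) (hN : ∀ g ∈ 𝒢, ∀ x ∈ Nf, g x ∈ Nf)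
    (F : Finset W) (hF : ∀ a ∈ F, a ∈ L ∧ a ∈ Nf) :
    ∃ S : Finset W, (∀ a ∈ S, a ∈ L ∧ a ∈ Nf) ∧
      (∀ x ∈ cone S, ∀ g ∈ 𝒢, ξ₀ x ≤ ξ₀ (g x)) ∧
      ∀ x ∈ cone F, ∃ g ∈ 𝒢, g x ∈ cone S := by
  classical
  obtain ⟨T, hT𝒢, hT⟩ := D.exists_dickson 𝒢 hL hN D.xi_int one_pos
    (fun x _ => by rw [one_mul]) F hF
  -- the pieces
  have hpiece : ∀ t : W ≃ₗ[ℝ] W, t ∈ T → ∃ S' : Finset W, (∀ a ∈ S', a ∈ L ∧ a ∈ Nf) ∧
      ∀ x, x ∈ cone S' ↔ x ∈ cone F ∧ ∀ t' ∈ T, ξ₀ (t x) ≤ ξ₀ (t' x) := by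
    intro t ht
    obtain ⟨S', hS', h⟩ := D.cut_many F hF
      (T.image fun t' : W ≃ₗ[ℝ] W => ξ₀.comp (t' : W →ₗ[ℝ] W) - ξ₀.comp (t : W →ₗ[ℝ] W)) (by
        intro φ hφ x hx
        obtain ⟨t', ht', rfl⟩ := Finset.mem_image.1 hφ
        obtain ⟨m, hm⟩ := D.xi_int _ (hL t' (hT𝒢 t' ht') x hx)
        obtain ⟨n, hn⟩ := D.xi_int _ (hL t (hT𝒢 t ht) x hx)
        exact ⟨m - n, by simp [hm, hn]⟩)
    refine ⟨S', hS', fun x => ?_⟩
    rw [h]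
    simp only [Finset.forall_mem_image, LinearMap.sub_apply, LinearMap.comp_apply,
      LinearEquiv.coe_coe, sub_nonneg]
  choose! P hP hPc using hpiece
  let S : Finset W := T.biUnion fun t => (P t).image t
  have hSmem : ∀ a ∈ S, ∃ t ∈ T, ∃ b ∈ P t, t b = a := by
    intro a ha
    obtain ⟨t, ht, h1⟩ := Finset.mem_biUnion.1 ha
    obtain ⟨b, hb, rfl⟩ := Finset.mem_image.1 h1
    exact ⟨t, ht, b, hb, rfl⟩
  have hSLN : ∀ a ∈ S, a ∈ L ∧ a ∈ Nf := by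
    intro a ha
    obtain ⟨t, ht, b, hb, rfl⟩ := hSmem a ha
    exact ⟨hL t (hT𝒢 t ht) _ (hP t ht b hb).1, hN t (hT𝒢 t ht) _ (hP t ht b hb).2⟩
  refine ⟨S, hSLN, ?_, ?_⟩
  · intro x hx g hg
    have h1 : ∀ a ∈ S, ξ₀ ((LinearMap.id : W →ₗ[ℝ] W) a) ≤ ξ₀ ((g : W →ₗ[ℝ] W) a) := by
      intro a ha
      obtain ⟨t, ht, b, hb, rfl⟩ := hSmem a ha
      have h2 := (hPc t ht b).1 (mem_cone_self hb)
      obtain ⟨t', ht', h3⟩ := hT (g * t) (𝒢.mul_mem hg (hT𝒢 t ht))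
      have h4 : ξ₀ ((t' : W →ₗ[ℝ] W) b) ≤ ξ₀ (((g * t : W ≃ₗ[ℝ] W) : W →ₗ[ℝ] W) b) :=
        le_of_cone (fun a ha => h3 a ha) h2.1
      exact (h2.2 t' ht').trans h4
    exact le_of_cone h1 hx
  · intro x hx
    have hTne : T.Nonempty := by
      obtain ⟨t, ht, -⟩ := hT 1 𝒢.one_mem
      exact ⟨t, ht⟩
    obtain ⟨t, ht, hmin⟩ := Finset.exists_min_image T (fun t => ξ₀ (t x)) hTne
    have h1 : x ∈ cone (P t) := (hPc t ht _).2 ⟨hx, hmin⟩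
    refine ⟨t, hT𝒢 t ht, ?_⟩
    have h2 : (t : W →ₗ[ℝ] W) x ∈ cone ((P t).image (t : W →ₗ[ℝ] W)) := cone_image _ h1
    refine cone_mono ?_ h2
    exact Finset.subset_biUnion_of_mem (fun t : W ≃ₗ[ℝ] W => (P t).image t) ht

/-- Only finitely many elements of the group fix an interior point of the Dirichlet cone. -/
theorem finite_fix (D : CData L Nf ξ₀ y₀ Y) (𝒢 : Subgroup (W ≃ₗ[ℝ] W))
    (hL : ∀ g ∈ 𝒢, ∀ x ∈ L, g x ∈ L) (hN : ∀ g ∈ 𝒢, ∀ x ∈ Nf, g x ∈ Nf)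
    (S : Finset W) (hS : ∀ a ∈ S, a ∈ L ∧ a ∈ Nf)
    (hdir : ∀ x ∈ cone S, ∀ g ∈ 𝒢, ξ₀ x ≤ ξ₀ (g x)) :
    {h : W ≃ₗ[ℝ] W | h ∈ 𝒢 ∧ ∃ y ∈ cone S, (∃ t : ℝ, 0 < t ∧ y - t • y₀ ∈ Nf) ∧
      h y = y}.Finite := by
  classical
  have hτ : ∀ T : Finset W, (∃ t : ℝ, 0 < t ∧ ∑ s ∈ T, s - t • y₀ ∈ Nf) →
      ∃ t : ℝ, 0 < t ∧ ∑ s ∈ T, s - t • y₀ ∈ Nf := fun T h => h
  choose! τ hτ using hτ
  set B : ℝ := ∑ T ∈ S.powerset, |ξ₀ (∑ s ∈ T, s) / τ T| with hB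
  have hNz : (0 : W) ∈ Nf := by
    have := D.smul 0 le_rfl _ D.y_N
    rwa [zero_smul] at this
  have key : ∀ h ∈ 𝒢, (∃ y ∈ cone S, (∃ t : ℝ, 0 < t ∧ y - t • y₀ ∈ Nf) ∧ h y = y) →
      ξ₀ (h y₀) ≤ B := by
    rintro h hh ⟨y, ⟨c, hc, rfl⟩, ⟨t, ht, hyt⟩, hfix⟩
    set T : Finset W := S.filter (fun s => 0 < c s) with hT
    have hTS : T ∈ S.powerset := Finset.mem_powerset.2 (Finset.filter_subset _ _)
    -- the sum over `T`
    have hyT : ∑ a ∈ S, c a • a = ∑ a ∈ T, c a • a := by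
      rw [hT, Finset.sum_filter]
      refine Finset.sum_congr rfl fun a _ => ?_
      split_ifs with h0
      · rfl
      · have : c a = 0 := le_antisymm (not_lt.1 h0) (hc a)
        rw [this, zero_smul]
    set M : ℝ := ∑ a ∈ S, c a + 1 with hM
    have hM0 : 0 < M := by
      have : 0 ≤ ∑ a ∈ S, c a := Finset.sum_nonneg fun a _ => hc a
      linarith
    have hcM : ∀ a ∈ S, c a ≤ M := by
      intro a ha
      have := Finset.single_le_sum (f := c) (fun b _ => hc b) ha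
      linarith
    have hzT : ∃ t : ℝ, 0 < t ∧ ∑ s ∈ T, s - t • y₀ ∈ Nf := by
      refine ⟨t / M, div_pos ht hM0, ?_⟩
      have h1 : ∑ a ∈ T, (M - c a) • a ∈ Nf := by
        refine D.cone_Nf hS (cone_sum _ _ fun a ha => ?_)
        have haS := (Finset.mem_filter.1 ha).1
        exact cone_smul (mem_cone_self haS) (sub_nonneg.2 (hcM a haS))
      have h2 := D.smul M⁻¹ (inv_nonneg.2 hM0.le) _ (D.add _ hyt _ h1)
      have h3 : M⁻¹ • (∑ a ∈ S, c a • a - t • y₀ + ∑ a ∈ T, (M - c a) • a)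
          = ∑ s ∈ T, s - (t / M) • y₀ := by
        rw [hyT]
        have h4 : ∑ a ∈ T, c a • a - t • y₀ + ∑ a ∈ T, (M - c a) • a
            = M • ∑ a ∈ T, a - t • y₀ := by
          rw [sub_add_eq_add_sub, ← Finset.sum_add_distrib, Finset.smul_sum]
          congr 1
          refine Finset.sum_congr rfl fun a _ => ?_
          rw [← add_smul, add_sub_cancel]
        rw [h4, smul_sub, smul_smul, smul_smul, inv_mul_cancel₀ hM0.ne', one_smul,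
          div_eq_inv_mul]
      rwa [h3] at h2
    obtain ⟨hτ0, hτN⟩ := hτ T hzT
    -- equality of the values
    have hval : ∀ s ∈ T, ξ₀ (h s) = ξ₀ s := by
      have h1 : ∑ a ∈ S, c a * (ξ₀ (h a) - ξ₀ a) = 0 := by
        have h2 := congrArg ξ₀ hfix
        simp only [map_sum, map_smul, smul_eq_mul] at h2
        simp only [mul_sub, Finset.sum_sub_distrib]
        rw [h2, sub_self]
      have h3 := (Finset.sum_eq_zero_iff_of_nonneg (fun a ha =>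
        mul_nonneg (hc a) (sub_nonneg.2 (hdir a (mem_cone_self ha) h hh)))).1 h1
      intro s hs
      obtain ⟨hsS, hcs⟩ := Finset.mem_filter.1 hs
      rcases mul_eq_zero.1 (h3 s hsS) with h4 | h4
      · exact absurd h4 hcs.ne'
      · linarith
    have hsum : ξ₀ (h (∑ s ∈ T, s)) = ξ₀ (∑ s ∈ T, s) := by
      rw [map_sum, map_sum, map_sum]
      exact Finset.sum_congr rfl hval
    have h1 := D.xi_nonneg (hN h hh _ hτN)
    rw [map_sub, map_sub, hsum, map_smul, map_smul, smul_eq_mul, sub_nonneg] at h1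
    have h2 : ξ₀ (h y₀) ≤ ξ₀ (∑ s ∈ T, s) / τ T := by
      rw [le_div_iff₀ hτ0]; linarith
    exact (h2.trans (le_abs_self _)).trans
      (Finset.single_le_sum (f := fun T => |ξ₀ (∑ s ∈ T, s) / τ T|)
        (fun _ _ => abs_nonneg _) hTS)
  have hB0 : 0 ≤ B := Finset.sum_nonneg fun _ _ => abs_nonneg _
  choose! K hK using D.y_int
  refine (D.finite_small 𝒢 hL hN (∑ y ∈ Y, K y * B)).subset ?_
  rintro h ⟨hh, hy⟩
  refine ⟨hh, fun y hyY => ?_⟩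
  have h1 := D.xi_nonneg (hN h hh _ (hK y).2)
  rw [map_sub, map_sub, map_smul, map_smul, smul_eq_mul, sub_nonneg] at h1
  have h2 : ξ₀ (h y) ≤ K y * B :=
    h1.trans (mul_le_mul_of_nonneg_left (key h hh hy) (hK y).1.le)
  exact h2.trans (Finset.single_le_sum (f := fun y => K y * B)
    (fun z _ => mul_nonneg (hK z).1.le hB0) hyY)

end Pool.Agent.N165.KM
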