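import Pool.Agent.N165.KM.Basic
import Pool.Agent.N165.KM.Dir

/-!
# Fundamental domains: covering criterion, descent to quotients, products
-/

set_option autoImplicit false

namespace Pool.Agent.N165.KM

open Pool.Agent.Y167 Pool.Agent.Y167.CData Topology

/-- The group `A` acting through `pull` has a rational polyhedral fundamental domain on `Nf`. -/
def HasFD {ρ : ℕ} {A : Type} [Group A] (pull : A → ((Fin ρ → ℝ) ≃ₗ[ℝ] (Fin ρ → ℝ)))
    (Nf : Set (Fin ρ → ℝ)) : Prop :=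
  ∃ S : Finset (Fin ρ → ℝ), (∀ s ∈ S, s ∈ IntL ρ) ∧
    Nf = ⋃ f : A, pull f '' cone S ∧
    ∀ f : A, pull f ≠ 1 → interior (cone S) ∩ pull f '' interior (cone S) = ∅

/-- For every finite group `G`, the homomorphisms `G → A` with a given action form finitely many
conjugacy classes under the kernel of the action. -/
def HomFin {ρ : ℕ} {A : Type} [Group A] (pull : A → ((Fin ρ → ℝ) ≃ₗ[ℝ] (Fin ρ → ℝ))) : Prop :=
  ∀ (G : Type) [Group G] [Finite G] (ψ : G → ((Fin ρ → ℝ) ≃ₗ[ℝ] (Fin ρ → ℝ))),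
    ∃ R : Set (G →* A), R.Finite ∧ ∀ φ : G →* A, (∀ g, pull (φ g) = ψ g) →
      ∃ r ∈ R, ∃ k : A, pull k = 1 ∧ ∀ g, φ g = k * r g * k⁻¹

section Pull

variable {ρ : ℕ} {A : Type} [Group A] {pull : A → ((Fin ρ → ℝ) ≃ₗ[ℝ] (Fin ρ → ℝ))}

theorem pull_one (hmul : ∀ f g, pull (f * g) = pull g * pull f) : pull 1 = 1 := by
  have h := hmul 1 1
  rw [mul_one] at h
  exact (mul_eq_left.1 h.symm)

theorem pull_inv (hmul : ∀ f g, pull (f * g) = pull g * pull f) (f : A) :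
    pull f⁻¹ = (pull f)⁻¹ := by
  have h := hmul f f⁻¹
  rw [mul_inv_cancel, pull_one hmul] at h
  exact eq_inv_of_mul_eq_one_left h.symm

/-- The image of the action. -/
def rangeSub (hmul : ∀ f g, pull (f * g) = pull g * pull f) :
    Subgroup ((Fin ρ → ℝ) ≃ₗ[ℝ] (Fin ρ → ℝ)) where
  carrier := Set.range pull
  mul_mem' := by
    rintro _ _ ⟨f, rfl⟩ ⟨g, rfl⟩
    exact ⟨g * f, hmul g f⟩
  one_mem' := ⟨1, pull_one hmul⟩
  inv_mem' := by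
    rintro _ ⟨f, rfl⟩
    exact ⟨f⁻¹, pull_inv hmul f⟩

theorem mem_rangeSub (hmul : ∀ f g, pull (f * g) = pull g * pull f)
    {g : (Fin ρ → ℝ) ≃ₗ[ℝ] (Fin ρ → ℝ)} : g ∈ rangeSub hmul ↔ ∃ f, pull f = g := Iff.rfl

theorem pull_inv_apply (hmul : ∀ f g, pull (f * g) = pull g * pull f) (f : A) (x : Fin ρ → ℝ) :
    pull f⁻¹ (pull f x) = x := by
  rw [pull_inv hmul]
  have : ((pull f)⁻¹ * pull f) x = x := by rw [inv_mul_cancel]; rfl
  exact this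

theorem pull_apply_inv (hmul : ∀ f g, pull (f * g) = pull g * pull f) (f : A) (x : Fin ρ → ℝ) :
    pull f (pull f⁻¹ x) = x := by
  rw [pull_inv hmul]
  have : (pull f * (pull f)⁻¹) x = x := by rw [mul_inv_cancel]; rfl
  exact this

/-- Two cones separated by a functional have disjoint interiors. -/
theorem disjoint_interior {S : Finset (Fin ρ → ℝ)} {g : (Fin ρ → ℝ) ≃ₗ[ℝ] (Fin ρ → ℝ)}
    {φ : (Fin ρ → ℝ) →ₗ[ℝ] ℝ} (hφ : φ ≠ 0) (h1 : ∀ x ∈ cone S, 0 ≤ φ x)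
    (h2 : ∀ x ∈ cone S, φ (g x) ≤ 0) : interior (cone S) ∩ g '' interior (cone S) = ∅ := by
  rw [Set.eq_empty_iff_forall_notMem]
  rintro _ ⟨hz, w, hw, rfl⟩
  obtain ⟨v, hv⟩ : ∃ v, φ v ≠ 0 := by
    by_contra hcon
    push Not at hcon
    exact hφ (LinearMap.ext hcon)
  have key : ∀ v, φ v ≤ 0 := by
    intro v
    obtain ⟨t, ht, hx⟩ := interior_sub hz v
    have h3 := h1 _ (interior_subset hx)
    have h4 := h2 _ (interior_subset hw)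
    rw [map_sub, map_smul, smul_eq_mul] at h3
    by_contra hcon
    push Not at hcon
    have := mul_pos ht hcon
    linarith
  apply hv
  have h5 := key v
  have h6 := key (-v)
  rw [map_neg] at h6
  linarith

theorem cone_mem_Nf {C Nf : Set (Fin ρ → ℝ)} (h : Sandwich C Nf) {S : Finset (Fin ρ → ℝ)}
    (hS : ∀ a ∈ S, a ∈ Nf) {x : Fin ρ → ℝ} (hx : x ∈ cone S) : x ∈ Nf := by
  refine cone_ind (p := fun x => x ∈ Nf) ?_ (fun x y hx hy => h.Nadd x hx y hy)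
    (fun t x ht hx => h.Nsmul t ht x hx) (fun a ha => hS a ha) hx
  obtain ⟨y, hy⟩ := h.int
  have := h.Nsmul 0 le_rfl _ (h.Nint hy)
  rwa [zero_smul] at this

/-- The covering criterion. -/
theorem HasFD.of_cover {C Nf : Set (Fin ρ → ℝ)} (h : Sandwich C Nf)
    (hmul : ∀ f g, pull (f * g) = pull g * pull f)
    (hL : ∀ f, ∀ x ∈ IntL ρ, pull f x ∈ IntL ρ) (hN : ∀ f, ∀ x ∈ Nf, pull f x ∈ Nf)
    (hCp : ∀ x ∈ Nf, x ∈ Cp (IntL ρ) Nf)
    (F : Finset (Fin ρ → ℝ)) (hF : ∀ a ∈ F, a ∈ IntL ρ ∧ a ∈ Nf)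
    (hcov : ∀ x ∈ interior C, ∃ f, pull f x ∈ cone F) : HasFD pull Nf := by
  classical
  obtain ⟨ξ₀, y₀, Y, D, hy₀⟩ := exists_cdata h
  have hL' : ∀ g ∈ rangeSub hmul, ∀ x ∈ IntL ρ, g x ∈ IntL ρ := by
    rintro _ ⟨f, rfl⟩; exact hL f
  have hN' : ∀ g ∈ rangeSub hmul, ∀ x ∈ Nf, g x ∈ Nf := by
    rintro _ ⟨f, rfl⟩; exact hN f
  obtain ⟨S, hS, hSc, hdis⟩ := D.domain (rangeSub hmul) hL' hN' F hF (by
    rintro x ⟨t, ht, hx⟩
    have h1 : x ∈ interior C := by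
      have h2 : t • y₀ + (x - t • y₀) ∈ interior C :=
        interior_add_mem h.add (interior_smul_mem h.smul ht hy₀) (h.Nsub hx)
      rwa [add_sub_cancel] at h2
    obtain ⟨f, hf⟩ := hcov x h1
    exact ⟨pull f, ⟨f, rfl⟩, hf⟩)
  refine ⟨S, fun s hs => (hS s hs).1, ?_, ?_⟩
  · ext x
    simp only [Set.mem_iUnion, Set.mem_image]
    constructor
    · intro hx
      obtain ⟨_, ⟨f, rfl⟩, hfx⟩ := (hSc x).1 (hCp x hx)
      exact ⟨f⁻¹, pull f x, hfx, pull_inv_apply hmul f x⟩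
    · rintro ⟨f, y, hy, rfl⟩
      exact hN f _ (cone_mem_Nf h (fun a ha => (hS a ha).2) hy)
  · intro f hf
    obtain ⟨φ, hφ, h1, h2⟩ := hdis (pull f) ⟨f, rfl⟩ hf
    exact disjoint_interior hφ h1 h2

/-- A fundamental domain gives a covering. -/
theorem HasFD.cover {Nf : Set (Fin ρ → ℝ)}
    (hmul : ∀ f g, pull (f * g) = pull g * pull f)
    (hfd : HasFD pull Nf) :
    ∃ S : Finset (Fin ρ → ℝ), (∀ a ∈ S, a ∈ IntL ρ ∧ a ∈ Nf) ∧
      ∀ x ∈ Nf, ∃ f, pull f x ∈ cone S := by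
  obtain ⟨S, hS, hU, -⟩ := hfd
  refine ⟨S, fun a ha => ⟨hS a ha, ?_⟩, fun x hx => ?_⟩
  · rw [hU]
    simp only [Set.mem_iUnion, Set.mem_image]
    exact ⟨1, a, mem_cone_self ha, by rw [pull_one hmul]; rfl⟩
  · rw [hU] at hx
    simp only [Set.mem_iUnion, Set.mem_image] at hx
    obtain ⟨f, y, hy, rfl⟩ := hx
    exact ⟨f⁻¹, by rw [pull_inv_apply hmul]; exact hy⟩

/-- Every point of `Nf` is a combination of integral points as soon as it can be moved into a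
cone generated by such points. -/
theorem Cp_of_cover {Nf : Set (Fin ρ → ℝ)} (hmul : ∀ f g, pull (f * g) = pull g * pull f)
    (hL : ∀ f, ∀ x ∈ IntL ρ, pull f x ∈ IntL ρ) (hN : ∀ f, ∀ x ∈ Nf, pull f x ∈ Nf)
    {S : Finset (Fin ρ → ℝ)} (hS : ∀ a ∈ S, a ∈ IntL ρ ∧ a ∈ Nf) {x : Fin ρ → ℝ} {f : A}
    (hf : pull f x ∈ cone S) : x ∈ Cp (IntL ρ) Nf := by
  classical
  refine ⟨S.image (pull f⁻¹ : (Fin ρ → ℝ) →ₗ[ℝ] (Fin ρ → ℝ)), ?_, ?_⟩
  · intro a ha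
    obtain ⟨b, hb, rfl⟩ := Finset.mem_image.1 ha
    exact ⟨hL _ _ (hS b hb).1, hN _ _ (hS b hb).2⟩
  · have h1 := cone_image (pull f⁻¹ : (Fin ρ → ℝ) →ₗ[ℝ] (Fin ρ → ℝ)) hf
    have h2 : (pull f⁻¹ : (Fin ρ → ℝ) →ₗ[ℝ] (Fin ρ → ℝ)) (pull f x) = x :=
      pull_inv_apply hmul f x
    rwa [h2] at h1

end Pull

end Pool.Agent.N165.KM
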