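import Pool.Agent.N165.KM.Core

/-!
# Fundamental domains pass to faces (targets of contractions)
-/

set_option autoImplicit false

namespace Pool.Agent.N165.KM

open Pool.Agent.Y167 Pool.Agent.Y167.CData Topology

theorem cone_inv_smul' {ρ : ℕ} {S : Finset (Fin ρ → ℝ)} {n : ℝ} (hn : 0 < n) {x : Fin ρ → ℝ}
    (h : n • x ∈ cone S) : x ∈ cone S := by
  have h1 := cone_smul h (inv_nonneg.2 hn.le)
  rwa [smul_smul, inv_mul_cancel₀ hn.ne', one_smul] at h1

/-- **Contractions.** -/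
theorem contraction {ρ ρ' : ℕ} {A A' : Type} [Group A] [Group A']
    {pull : A → ((Fin ρ → ℝ) ≃ₗ[ℝ] (Fin ρ → ℝ))}
    {pull' : A' → ((Fin ρ' → ℝ) ≃ₗ[ℝ] (Fin ρ' → ℝ))}
    {C Nf : Set (Fin ρ → ℝ)} {C' Nf' : Set (Fin ρ' → ℝ)}
    (h : Sandwich C Nf) (h' : Sandwich C' Nf')
    (hmul : ∀ f g, pull (f * g) = pull g * pull f)
    (hmul' : ∀ f g, pull' (f * g) = pull' g * pull' f)
    (hL : ∀ f, ∀ x ∈ IntL ρ, pull f x ∈ IntL ρ) (hN : ∀ f, ∀ x ∈ Nf, pull f x ∈ Nf)
    (hL' : ∀ f, ∀ x ∈ IntL ρ', pull' f x ∈ IntL ρ') (hN' : ∀ f, ∀ x ∈ Nf', pull' f x ∈ Nf')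
    (up : (Fin ρ' → ℝ) →ₗ[ℝ] (Fin ρ → ℝ)) (hinj : Function.Injective up)
    (hupN : ∀ y, y ∈ Nf' ↔ up y ∈ Nf)
    (hface : ∀ a ∈ Nf, ∀ b ∈ Nf, (∃ y, up y = a + b) → ∃ y, up y = a)
    (hratl : ∃ m : ℕ, 0 < m ∧ ∀ y, up y ∈ IntL ρ → (m : ℝ) • y ∈ IntL ρ')
    (hdesc : ∀ f : A, (∀ y, ∃ z, up z = pull f (up y)) →
      ∃ f' : A', ∀ y, up (pull' f' y) = pull f (up y))
    (hfd : HasFD pull Nf) : HasFD pull' Nf' := by
  classical
  obtain ⟨S, hS, hcov⟩ := HasFD.cover hmul hfd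
  obtain ⟨m, hm0, hm⟩ := hratl
  have hmr : (0 : ℝ) < m := by exact_mod_cast hm0
  have hNz : (0 : Fin ρ → ℝ) ∈ Nf := cone_mem_Nf h (fun a ha => (hS a ha).2) (zero_mem_cone S)
  -- a positive combination in the image has all its terms in the image
  have hterms : ∀ (g : A) (c : (Fin ρ → ℝ) → ℝ), (∀ a, 0 ≤ c a) →
      (∃ y, up y = pull g (∑ a ∈ S, c a • a)) → ∀ s ∈ S, 0 < c s → ∃ y, up y = pull g s := by
    rintro g c hc ⟨y, hy⟩ s hs hcs
    have h1 : pull g (∑ a ∈ S, c a • a) = c s • pull g s + pull g (∑ a ∈ S.erase s, c a • a) := by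
      rw [← Finset.add_sum_erase _ _ hs, map_add, map_smul]
    have h2 : pull g (∑ a ∈ S.erase s, c a • a) ∈ Nf := by
      apply hN
      refine cone_mem_Nf h (S := S) (fun a ha => (hS a ha).2) (cone_sum _ _ fun a ha => ?_)
      exact cone_smul (mem_cone_self (Finset.mem_of_mem_erase ha)) (hc a)
    obtain ⟨z, hz⟩ := hface (c s • pull g s) (h.Nsmul _ (hc s) _ (hN _ _ (hS s hs).2)) _ h2
      ⟨y, by rw [hy, h1]⟩
    exact ⟨(c s)⁻¹ • z, by rw [map_smul, hz, smul_smul, inv_mul_cancel₀ hcs.ne', one_smul]⟩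
  -- good pairs
  let good : A → Finset (Fin ρ → ℝ) → Prop := fun g T =>
    (∀ s ∈ T, ∃ y, up y = pull g s) ∧ ∃ y ∈ interior C', up y = pull g (∑ s ∈ T, s)
  have hrep : ∀ T : Finset (Fin ρ → ℝ), (∃ g, good g T) → ∃ g, good g T := fun T hT => hT
  choose! rep hrep using hrep
  have hy : ∀ T : Finset (Fin ρ → ℝ), ∀ s : Fin ρ → ℝ, (∃ y, up y = pull (rep T) s) →
      ∃ y, up y = pull (rep T) s := fun T s hs => hs
  choose! pt hpt using hy
  let F' : Finset (Fin ρ' → ℝ) := (S.powerset.filter (fun T => ∃ g, good g T)).biUnion fun T =>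
    T.image fun s => (m : ℝ) • pt T s
  have hptN : ∀ T ∈ S.powerset, (∃ g, good g T) → ∀ s ∈ T,
      (m : ℝ) • pt T s ∈ IntL ρ' ∧ pt T s ∈ Nf' := by
    intro T hT hg s hs
    have h1 := hpt T s ((hrep T hg).1 s hs)
    have hsS := Finset.mem_powerset.1 hT hs
    refine ⟨hm _ ?_, ?_⟩
    · rw [h1]; exact hL _ _ (hS s hsS).1
    · rw [hupN, h1]; exact hN _ _ (hS s hsS).2
  have hF' : ∀ a ∈ F', a ∈ IntL ρ' ∧ a ∈ Nf' := by
    intro a ha
    obtain ⟨T, hT, h1⟩ := Finset.mem_biUnion.1 ha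
    obtain ⟨hTS, hg⟩ := Finset.mem_filter.1 hT
    obtain ⟨s, hs, rfl⟩ := Finset.mem_image.1 h1
    have h2 := hptN T hTS hg s hs
    exact ⟨h2.1, h'.Nsmul _ hmr.le _ h2.2⟩
  -- elements which compare two good pairs descend
  have hcompare : ∀ (T : Finset (Fin ρ → ℝ)) (g g₀ : A), good g T → good g₀ T →
      ∀ y, ∃ z, up z = pull (g₀⁻¹ * g) (up y) := by
    rintro T g g₀ ⟨-, y₂, hy₂, hy₂'⟩ ⟨-, y₁, hy₁, hy₁'⟩
    have e1 : pull (g₀⁻¹ * g) (up y₁) = up y₂ := by
      rw [hmul, hy₁', hy₂']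
      show pull g (pull g₀⁻¹ (pull g₀ _)) = _
      rw [pull_inv_apply hmul]
    have e2 : ∀ v ∈ interior C', ∃ z, up z = pull (g₀⁻¹ * g) (up v) := by
      intro v hv
      obtain ⟨t, ht, hx⟩ := interior_sub hy₁ v
      have h1 : up y₁ = t • up v + up (y₁ - t • v) := by
        rw [map_sub, map_smul]; abel
      have h2 : pull (g₀⁻¹ * g) (up y₁) =
          t • pull (g₀⁻¹ * g) (up v) + pull (g₀⁻¹ * g) (up (y₁ - t • v)) := by
        rw [h1, map_add, map_smul]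
      obtain ⟨z, hz⟩ := hface (t • pull (g₀⁻¹ * g) (up v))
        (h.Nsmul _ ht.le _ (hN _ _ ((hupN _).1 (h'.Nint hv)))) _
        (hN _ _ ((hupN _).1 (h'.Nint hx))) ⟨y₂, by rw [← e1, h2]⟩
      exact ⟨t⁻¹ • z, by rw [map_smul, hz, smul_smul, inv_mul_cancel₀ ht.ne', one_smul]⟩
    intro y
    obtain ⟨t, ht, hx⟩ := interior_sub hy₁ y
    obtain ⟨z, hz⟩ := e2 _ hx
    refine ⟨t⁻¹ • (y₂ - z), ?_⟩
    rw [map_smul, map_sub, hz, ← e1, map_sub, map_smul, map_sub, map_smul, sub_sub_cancel,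
      smul_smul, inv_mul_cancel₀ ht.ne', one_smul]
  -- the inverse image of a covering
  have hpre : ∀ y ∈ Nf', ∃ (g : A) (c : (Fin ρ → ℝ) → ℝ), (∀ a, 0 ≤ c a) ∧
      up y = pull g (∑ a ∈ S, c a • a) := by
    intro y hy
    obtain ⟨f, c, hc, hfc⟩ := hcov _ ((hupN y).1 hy)
    exact ⟨f⁻¹, c, hc, by rw [← hfc, pull_inv_apply hmul]⟩
  refine HasFD.of_cover h' hmul' hL' hN' ?_ F' hF' ?_
  · intro y hy
    obtain ⟨g, c, hc, hyc⟩ := hpre y hy
    have h1 : ∀ s, ∃ z, (s ∈ S → 0 < c s → up z = pull g s) := by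
      intro s
      by_cases hs : s ∈ S ∧ 0 < c s
      · obtain ⟨z, hz⟩ := hterms g c hc ⟨y, hyc⟩ s hs.1 hs.2
        exact ⟨z, fun _ _ => hz⟩
      · exact ⟨0, fun h1 h2 => absurd ⟨h1, h2⟩ hs⟩
    choose z hz using h1
    refine ⟨(S.filter (fun s => 0 < c s)).image fun s => (m : ℝ) • z s, ?_, ?_⟩
    · intro a ha
      obtain ⟨s, hs, rfl⟩ := Finset.mem_image.1 ha
      obtain ⟨hsS, hcs⟩ := Finset.mem_filter.1 hs
      have h2 := hz s hsS hcs
      refine ⟨hm _ ?_, h'.Nsmul _ hmr.le _ ?_⟩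
      · rw [h2]; exact hL _ _ (hS s hsS).1
      · rw [hupN, h2]; exact hN _ _ (hS s hsS).2
    · have h3 : y = ∑ s ∈ S.filter (fun s => 0 < c s), (c s / m) • ((m : ℝ) • z s) := by
        apply hinj
        rw [hyc, map_sum, map_sum, Finset.sum_filter]
        refine Finset.sum_congr rfl fun s hs => ?_
        split_ifs with h0
        · rw [map_smul, map_smul, map_smul, hz s hs h0, smul_smul, div_mul_cancel₀ _ hmr.ne']
        · have : c s = 0 := le_antisymm (not_lt.1 h0) (hc s)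
          rw [this, zero_smul, map_zero]
      rw [h3]
      exact cone_sum _ _ fun s hs => cone_smul (mem_cone_self (Finset.mem_image_of_mem _ hs))
        (div_nonneg (hc s) hmr.le)
  · intro y hy
    obtain ⟨g, c, hc, hyc⟩ := hpre y (h'.Nint hy)
    set T : Finset (Fin ρ → ℝ) := S.filter (fun s => 0 < c s) with hT
    have hTS : T ∈ S.powerset := Finset.mem_powerset.2 (Finset.filter_subset _ _)
    have hyT : ∑ a ∈ S, c a • a = ∑ a ∈ T, c a • a := by
      rw [hT, Finset.sum_filter]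
      refine Finset.sum_congr rfl fun a _ => ?_
      split_ifs with h0
      · rfl
      · have : c a = 0 := le_antisymm (not_lt.1 h0) (hc a)
        rw [this, zero_smul]
    have hterm : ∀ s ∈ T, ∃ z, up z = pull g s := fun s hs =>
      hterms g c hc ⟨y, hyc⟩ s (Finset.mem_filter.1 hs).1 (Finset.mem_filter.1 hs).2
    have hgood : good g T := by
      refine ⟨hterm, ?_⟩
      choose! z hz using hterm
      refine ⟨∑ s ∈ T, z s, ?_, by rw [map_sum, map_sum]; exact Finset.sum_congr rfl hz⟩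
      set M : ℝ := ∑ a ∈ S, c a + 1 with hM
      have hM0 : 0 < M := by
        have : 0 ≤ ∑ a ∈ S, c a := Finset.sum_nonneg fun a _ => hc a
        linarith
      have hcM : ∀ a ∈ S, c a ≤ M := by
        intro a ha
        have := Finset.single_le_sum (f := c) (fun b _ => hc b) ha
        linarith
      have h1 : M • ∑ s ∈ T, z s = y + ∑ s ∈ T, (M - c s) • z s := by
        apply hinj
        rw [map_add, hyc, hyT, map_smul, map_sum, map_sum, map_sum, Finset.smul_sum,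
          ← Finset.sum_add_distrib]
        refine Finset.sum_congr rfl fun s hs => ?_
        rw [map_smul, map_smul, hz s hs, ← add_smul, add_sub_cancel]
      have h2 : ∑ s ∈ T, (M - c s) • z s ∈ Nf' := by
        rw [hupN, map_sum]
        refine Finset.sum_induction _ (· ∈ Nf) (fun a b ha hb => h.Nadd a ha b hb) hNz ?_
        intro s hs
        have hsS := (Finset.mem_filter.1 hs).1
        rw [map_smul, hz s hs]
        exact h.Nsmul _ (sub_nonneg.2 (hcM s hsS)) _ (hN _ _ (hS s hsS).2)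
      have h3 : M • ∑ s ∈ T, z s ∈ interior C' := by
        rw [h1]
        exact interior_add_mem h'.add hy (h'.Nsub h2)
      have h4 := interior_smul_mem h'.smul (inv_pos.2 hM0) h3
      rwa [smul_smul, inv_mul_cancel₀ hM0.ne', one_smul] at h4
    have hex : ∃ g, good g T := ⟨g, hgood⟩
    have hgood₀ := hrep T hex
    obtain ⟨h₁, hh₁⟩ := hdesc _ (hcompare T g (rep T) hgood hgood₀)
    refine ⟨h₁⁻¹, ?_⟩
    have h5 : y = pull' h₁ (∑ s ∈ T, c s • pt T s) := by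
      apply hinj
      rw [hh₁, hyc, hyT, hmul]
      have h6 : up (∑ s ∈ T, c s • pt T s) = pull (rep T) (∑ s ∈ T, c s • s) := by
        rw [map_sum, map_sum]
        refine Finset.sum_congr rfl fun s hs => ?_
        rw [map_smul, map_smul, hpt T s (hgood₀.1 s hs)]
      rw [h6]
      show _ = pull g (pull (rep T)⁻¹ (pull (rep T) _))
      rw [pull_inv_apply hmul]
    rw [h5, pull_inv_apply hmul']
    refine cone_sum _ _ fun s hs => cone_smul ?_ (hc s)
    apply cone_inv_smul' hmr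
    refine mem_cone_self ?_
    refine Finset.mem_biUnion.2 ⟨T, Finset.mem_filter.2 ⟨hTS, hex⟩, ?_⟩
    exact Finset.mem_image_of_mem (fun s => (m : ℝ) • pt T s) hs

end Pool.Agent.N165.KM
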