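import Pool.Agent.N165.KM.Core

/-!
# Descent of fundamental domains to finite quotients, and products
-/

set_option autoImplicit false

namespace Pool.Agent.N165.KM

open Pool.Agent.Y167 Pool.Agent.Y167.CData Topology

/-- The conjugate of the inclusion of `G`. -/
def conjHom {A : Type} [Group A] (G : Subgroup A) (f : A) : G →* A where
  toFun u := f⁻¹ * u * f
  map_one' := by simp
  map_mul' := by intro u v; simp [mul_assoc]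

theorem cone_inv_smul {ρ : ℕ} {S : Finset (Fin ρ → ℝ)} {n : ℝ} (hn : 0 < n) {x : Fin ρ → ℝ}
    (h : n • x ∈ cone S) : x ∈ cone S := by
  have h1 := cone_smul h (inv_nonneg.2 hn.le)
  rwa [smul_smul, inv_mul_cancel₀ hn.ne', one_smul] at h1

/-- **Descent.** -/
theorem descent {ρ ρ' : ℕ} {A A' : Type} [Group A] [Group A']
    {pull : A → ((Fin ρ → ℝ) ≃ₗ[ℝ] (Fin ρ → ℝ))}
    {pull' : A' → ((Fin ρ' → ℝ) ≃ₗ[ℝ] (Fin ρ' → ℝ))}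
    {C Nf : Set (Fin ρ → ℝ)} {C' Nf' : Set (Fin ρ' → ℝ)}
    (h : Sandwich C Nf) (h' : Sandwich C' Nf')
    (hmul : ∀ f g, pull (f * g) = pull g * pull f)
    (hmul' : ∀ f g, pull' (f * g) = pull' g * pull' f)
    (hL : ∀ f, ∀ x ∈ IntL ρ, pull f x ∈ IntL ρ) (hN : ∀ f, ∀ x ∈ Nf, pull f x ∈ Nf)
    (hL' : ∀ f, ∀ x ∈ IntL ρ', pull' f x ∈ IntL ρ') (hN' : ∀ f, ∀ x ∈ Nf', pull' f x ∈ Nf')
    (hfin : HomFin pull) (G : Subgroup A) [Fintype G]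
    (up : (Fin ρ' → ℝ) →ₗ[ℝ] (Fin ρ → ℝ)) (down : (Fin ρ → ℝ) →ₗ[ℝ] (Fin ρ' → ℝ))
    (hud : ∀ y, down (up y) = (Fintype.card G : ℝ) • y)
    (hdu : ∀ x, up (down x) = ∑ g : G, pull g x)
    (hupN : ∀ y ∈ Nf', up y ∈ Nf)
    (hdownL : ∀ x ∈ IntL ρ, down x ∈ IntL ρ') (hdownN : ∀ x ∈ Nf, down x ∈ Nf')
    (hdesc : ∀ f : A, (∀ g ∈ G, g * f = f * g) → ∃ f' : A', ∀ y, up (pull' f' y) = pull f (up y))
    (hfd : HasFD pull Nf) : HasFD pull' Nf' := by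
  classical
  have hcard : (0 : ℝ) < Fintype.card G := by
    exact_mod_cast Fintype.card_pos
  obtain ⟨F, hF, hFcov⟩ := HasFD.cover hmul hfd
  obtain ⟨ξ₀, y₀, Y, D, hy₀⟩ := exists_cdata h
  have hL2 : ∀ g ∈ rangeSub hmul, ∀ x ∈ IntL ρ, g x ∈ IntL ρ := by
    rintro _ ⟨f, rfl⟩; exact hL f
  have hN2 : ∀ g ∈ rangeSub hmul, ∀ x ∈ Nf, g x ∈ Nf := by
    rintro _ ⟨f, rfl⟩; exact hN f
  obtain ⟨S, hS, hdir, hFS⟩ := dirichlet D (rangeSub hmul) hL2 hN2 F hF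
  have hHfin := finite_fix D (rangeSub hmul) hL2 hN2 S hS hdir
  -- pull-backs are fixed by `G`
  have hfixed : ∀ y, ∀ u : G, pull u (up y) = up y := by
    intro y u
    have e1 : ∑ g : G, pull g (up y) = (Fintype.card G : ℝ) • up y := by
      rw [← hdu, hud, map_smul]
    have e2 : pull u (∑ g : G, pull g (up y)) = ∑ g : G, pull g (up y) := by
      rw [map_sum]
      refine Fintype.sum_equiv (Equiv.mulRight u) _ _ fun g => ?_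
      simp only [Equiv.coe_mulRight, Subgroup.coe_mul]
      rw [hmul]
      rfl
    rw [e1, map_smul] at e2
    have e3 := congrArg (fun v => (Fintype.card G : ℝ)⁻¹ • v) e2
    simpa only [smul_smul, inv_mul_cancel₀ hcard.ne', one_smul] using e3
  -- pull-backs of interior points are interior
  have hupint : ∀ y ∈ interior C', up y ∈ interior C := by
    intro y hy
    obtain ⟨t, ht, hx⟩ := interior_sub hy (down y₀)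
    have h1 := hupN _ (h'.Nint hx)
    rw [map_sub, map_smul, hdu] at h1
    have h2 : ∑ g : G, pull g y₀ = y₀ + ∑ g ∈ Finset.univ.erase (1 : G), pull g y₀ := by
      rw [← Finset.add_sum_erase _ _ (Finset.mem_univ (1 : G))]
      congr 1
      rw [Subgroup.coe_one, pull_one hmul]
      rfl
    have hNz : (0 : Fin ρ → ℝ) ∈ Nf := by
      have := h.Nsmul 0 le_rfl _ (h.Nint hy₀)
      rwa [zero_smul] at this
    have h3 : ∑ g ∈ Finset.univ.erase (1 : G), pull g y₀ ∈ Nf := by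
      refine Finset.sum_induction _ (· ∈ Nf) (fun a b ha hb => h.Nadd a ha b hb) hNz ?_
      intro g _
      exact hN _ _ (h.Nint hy₀)
    have h4 : up y = t • y₀ + (t • ∑ g ∈ Finset.univ.erase (1 : G), pull g y₀ +
        (up y - t • ∑ g : G, pull g y₀)) := by
      rw [h2, smul_add]
      abel
    rw [h4]
    exact interior_add_mem h.add (interior_smul_mem h.smul ht hy₀)
      (h.Nsub (h.Nadd _ (h.Nsmul t ht.le _ h3) _ h1))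
  -- the relevant group elements
  let P : A → Prop := fun f => ∃ x, (∀ u : G, pull u x = x) ∧ x ∈ interior C ∧ pull f x ∈ cone S
  have hPH : ∀ f, P f → ∀ u : G, pull (conjHom G f u) ∈ {h : (Fin ρ → ℝ) ≃ₗ[ℝ] (Fin ρ → ℝ) |
      h ∈ rangeSub hmul ∧ ∃ y ∈ cone S, (∃ t : ℝ, 0 < t ∧ y - t • y₀ ∈ Nf) ∧ h y = y} := by
    rintro f ⟨x, hxu, hxC, hxS⟩ u
    refine ⟨⟨_, rfl⟩, pull f x, hxS, ?_, ?_⟩
    · obtain ⟨t, ht, hx⟩ := interior_sub hxC (pull f⁻¹ y₀)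
      refine ⟨t, ht, ?_⟩
      have h1 := hN f _ (h.Nint hx)
      rwa [map_sub, map_smul, pull_apply_inv hmul] at h1
    · show pull (f⁻¹ * u * f) (pull f x) = pull f x
      rw [hmul, hmul]
      show pull f (pull u (pull f⁻¹ (pull f x))) = pull f x
      rw [pull_inv_apply hmul, hxu]
  have hΨ := Set.Finite.pi' (fun _ : G => hHfin)
  choose R hRfin hR using hfin G
  have hRall : (⋃ ψ ∈ {ψ : G → ((Fin ρ → ℝ) ≃ₗ[ℝ] (Fin ρ → ℝ)) | ∀ u : G, ψ u ∈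
      {h : (Fin ρ → ℝ) ≃ₗ[ℝ] (Fin ρ → ℝ) | h ∈ rangeSub hmul ∧ ∃ y ∈ cone S,
        (∃ t : ℝ, 0 < t ∧ y - t • y₀ ∈ Nf) ∧ h y = y}}, R ψ).Finite :=
    Set.Finite.biUnion hΨ fun ψ _ => hRfin ψ
  let Q : A → (G →* A) → Prop := fun f r =>
    ∃ k : A, pull k = 1 ∧ ∀ g : G, conjHom G f g = k * r g * k⁻¹
  have hR'fin : {r : G →* A | (r ∈ ⋃ ψ ∈ {ψ : G → ((Fin ρ → ℝ) ≃ₗ[ℝ] (Fin ρ → ℝ)) | ∀ u : G,
      ψ u ∈ {h : (Fin ρ → ℝ) ≃ₗ[ℝ] (Fin ρ → ℝ) | h ∈ rangeSub hmul ∧ ∃ y ∈ cone S,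
        (∃ t : ℝ, 0 < t ∧ y - t • y₀ ∈ Nf) ∧ h y = y}}, R ψ) ∧ ∃ f, P f ∧ Q f r}.Finite :=
    hRall.subset fun r hr => hr.1
  have hR'ex : ∀ f, P f → ∃ r ∈ hR'fin.toFinset, Q f r := by
    intro f hf
    obtain ⟨r, hr, hQ⟩ := hR (fun u => pull (conjHom G f u)) (conjHom G f) (fun _ => rfl)
    refine ⟨r, ?_, hQ⟩
    rw [Set.Finite.mem_toFinset]
    refine ⟨?_, f, hf, hQ⟩
    exact Set.mem_biUnion (fun u => hPH f hf u) hr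
  have hrep : ∀ r ∈ hR'fin.toFinset, ∃ f, P f ∧ Q f r := fun r hr =>
    ((hR'fin.mem_toFinset).1 hr).2
  choose! rep hrepP hrepQ using hrep
  let F' : Finset (Fin ρ' → ℝ) := hR'fin.toFinset.biUnion fun r =>
    S.image (down ∘ₗ (pull (rep r)⁻¹ : (Fin ρ → ℝ) →ₗ[ℝ] (Fin ρ → ℝ)))
  have hF' : ∀ a ∈ F', a ∈ IntL ρ' ∧ a ∈ Nf' := by
    intro a ha
    obtain ⟨r, hr, h1⟩ := Finset.mem_biUnion.1 ha
    obtain ⟨s, hs, rfl⟩ := Finset.mem_image.1 h1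
    exact ⟨hdownL _ (hL _ _ (hS s hs).1), hdownN _ (hN _ _ (hS s hs).2)⟩
  refine HasFD.of_cover h' hmul' hL' hN' ?_ F' hF' ?_
  · intro y hy
    obtain ⟨f, hf⟩ := hFcov _ (hupN y hy)
    obtain ⟨T, hT, hyT⟩ := Cp_of_cover hmul hL hN hF hf
    refine ⟨T.image down, ?_, ?_⟩
    · intro a ha
      obtain ⟨b, hb, rfl⟩ := Finset.mem_image.1 ha
      exact ⟨hdownL _ (hT b hb).1, hdownN _ (hT b hb).2⟩
    · have h1 := cone_image down hyT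
      rw [hud] at h1
      exact cone_inv_smul hcard h1
  · intro y hy
    have hx := hupint y hy
    obtain ⟨f₁, hf₁⟩ := hFcov _ (h.Nint hx)
    obtain ⟨_, ⟨f₂, rfl⟩, hf₂⟩ := hFS _ hf₁
    have hf3 : pull (f₁ * f₂) (up y) ∈ cone S := by
      rw [hmul]
      exact hf₂
    generalize f₁ * f₂ = f at hf3
    have hPf : P f := ⟨up y, hfixed y, hx, hf3⟩
    obtain ⟨r, hr, k, hk, hkr⟩ := hR'ex f hPf
    obtain ⟨k', hk', hkr'⟩ := hrepQ r hr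
    obtain ⟨z', hz'⟩ := hdesc (f * (k * k'⁻¹) * (rep r)⁻¹) (by
      intro u hu
      have e1 : f⁻¹ * u * f = k * r ⟨u, hu⟩ * k⁻¹ := hkr ⟨u, hu⟩
      have e2 : (rep r)⁻¹ * u * rep r = k' * r ⟨u, hu⟩ * k'⁻¹ := hkr' ⟨u, hu⟩
      have e3 : u * f = f * (k * r ⟨u, hu⟩ * k⁻¹) := by rw [← e1]; group
      have e4 : (rep r)⁻¹ * u = k' * r ⟨u, hu⟩ * k'⁻¹ * (rep r)⁻¹ := by rw [← e2]; group
      calc u * (f * (k * k'⁻¹) * (rep r)⁻¹) = (u * f) * (k * k'⁻¹) * (rep r)⁻¹ := by group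
        _ = f * (k * k'⁻¹) * (k' * r ⟨u, hu⟩ * k'⁻¹ * (rep r)⁻¹) := by rw [e3]; group
        _ = f * (k * k'⁻¹) * ((rep r)⁻¹ * u) := by rw [e4]
        _ = f * (k * k'⁻¹) * (rep r)⁻¹ * u := by group)
    refine ⟨z', ?_⟩
    have hz : pull (f * (k * k'⁻¹) * (rep r)⁻¹) (up y) = pull (rep r)⁻¹ (pull f (up y)) := by
      rw [hmul, hmul, hmul, pull_inv hmul k', hk, hk']
      simp
    have h1 : (Fintype.card G : ℝ) • pull' z' y = down (pull (rep r)⁻¹ (pull f (up y))) := by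
      rw [← hud, hz', hz]
    apply cone_inv_smul hcard
    rw [h1]
    have h2 := cone_image (down ∘ₗ (pull (rep r)⁻¹ : (Fin ρ → ℝ) →ₗ[ℝ] (Fin ρ → ℝ))) hf3
    exact cone_mono (Finset.subset_biUnion_of_mem (fun r => S.image
      (down ∘ₗ (pull (rep r)⁻¹ : (Fin ρ → ℝ) →ₗ[ℝ] (Fin ρ → ℝ)))) hr) h2

/-- **Products.** -/
theorem product {ρ₁ ρ₂ ρ : ℕ} {A₁ A₂ A : Type} [Group A₁] [Group A₂] [Group A]
    {pull₁ : A₁ → ((Fin ρ₁ → ℝ) ≃ₗ[ℝ] (Fin ρ₁ → ℝ))}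
    {pull₂ : A₂ → ((Fin ρ₂ → ℝ) ≃ₗ[ℝ] (Fin ρ₂ → ℝ))}
    {pull : A → ((Fin ρ → ℝ) ≃ₗ[ℝ] (Fin ρ → ℝ))}
    {C₁ Nf₁ : Set (Fin ρ₁ → ℝ)} {C₂ Nf₂ : Set (Fin ρ₂ → ℝ)} {C Nf : Set (Fin ρ → ℝ)}
    (h₁ : Sandwich C₁ Nf₁) (h₂ : Sandwich C₂ Nf₂) (h : Sandwich C Nf)
    (hmul₁ : ∀ f g, pull₁ (f * g) = pull₁ g * pull₁ f)
    (hmul₂ : ∀ f g, pull₂ (f * g) = pull₂ g * pull₂ f)
    (hmul : ∀ f g, pull (f * g) = pull g * pull f)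
    (hL : ∀ f, ∀ x ∈ IntL ρ, pull f x ∈ IntL ρ) (hN : ∀ f, ∀ x ∈ Nf, pull f x ∈ Nf)
    (e : (Fin ρ → ℝ) ≃ₗ[ℝ] (Fin ρ₁ → ℝ) × (Fin ρ₂ → ℝ))
    (heL : ∀ x, x ∈ IntL ρ ↔ (e x).1 ∈ IntL ρ₁ ∧ (e x).2 ∈ IntL ρ₂)
    (heN : ∀ x, x ∈ Nf ↔ (e x).1 ∈ Nf₁ ∧ (e x).2 ∈ Nf₂)
    (haut : ∀ (f₁ : A₁) (f₂ : A₂), ∃ f : A, ∀ x, e (pull f x) = (pull₁ f₁ (e x).1, pull₂ f₂ (e x).2))
    (hfd₁ : HasFD pull₁ Nf₁) (hfd₂ : HasFD pull₂ Nf₂) : HasFD pull Nf := by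
  classical
  obtain ⟨S₁, hS₁, hc₁⟩ := HasFD.cover hmul₁ hfd₁
  obtain ⟨S₂, hS₂, hc₂⟩ := HasFD.cover hmul₂ hfd₂
  have hz₁ : (0 : Fin ρ₁ → ℝ) ∈ Nf₁ := cone_mem_Nf h₁ (fun a ha => (hS₁ a ha).2) (zero_mem_cone S₁)
  have hz₂ : (0 : Fin ρ₂ → ℝ) ∈ Nf₂ := cone_mem_Nf h₂ (fun a ha => (hS₂ a ha).2) (zero_mem_cone S₂)
  let i₁ : (Fin ρ₁ → ℝ) →ₗ[ℝ] (Fin ρ → ℝ) := e.symm.toLinearMap ∘ₗ LinearMap.inl ℝ (Fin ρ₁ → ℝ) (Fin ρ₂ → ℝ)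
  let i₂ : (Fin ρ₂ → ℝ) →ₗ[ℝ] (Fin ρ → ℝ) := e.symm.toLinearMap ∘ₗ LinearMap.inr ℝ (Fin ρ₁ → ℝ) (Fin ρ₂ → ℝ)
  have hi₁ : ∀ x, e (i₁ x) = (x, 0) := fun x => by simp [i₁]
  have hi₂ : ∀ x, e (i₂ x) = (0, x) := fun x => by simp [i₂]
  let F : Finset (Fin ρ → ℝ) := S₁.image i₁ ∪ S₂.image i₂
  have hF : ∀ a ∈ F, a ∈ IntL ρ ∧ a ∈ Nf := by
    intro a ha
    rcases Finset.mem_union.1 ha with ha | ha
    · obtain ⟨b, hb, rfl⟩ := Finset.mem_image.1 ha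
      rw [heL, heN, hi₁]
      exact ⟨⟨(hS₁ b hb).1, (IntL ρ₂).zero_mem⟩, (hS₁ b hb).2, hz₂⟩
    · obtain ⟨b, hb, rfl⟩ := Finset.mem_image.1 ha
      rw [heL, heN, hi₂]
      exact ⟨⟨(IntL ρ₁).zero_mem, (hS₂ b hb).1⟩, hz₁, (hS₂ b hb).2⟩
  have hcov : ∀ x ∈ Nf, ∃ f, pull f x ∈ cone F := by
    intro x hx
    obtain ⟨hx₁, hx₂⟩ := (heN x).1 hx
    obtain ⟨f₁, hf₁⟩ := hc₁ _ hx₁
    obtain ⟨f₂, hf₂⟩ := hc₂ _ hx₂
    obtain ⟨f, hf⟩ := haut f₁ f₂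
    refine ⟨f, ?_⟩
    have h1 : pull f x = i₁ (pull₁ f₁ (e x).1) + i₂ (pull₂ f₂ (e x).2) := by
      apply e.injective
      rw [hf, map_add, hi₁, hi₂, Prod.mk_add_mk, add_zero, zero_add]
    rw [h1]
    exact cone_add (cone_mono Finset.subset_union_left (cone_image i₁ hf₁))
      (cone_mono Finset.subset_union_right (cone_image i₂ hf₂))
  refine HasFD.of_cover h hmul hL hN ?_ F hF fun x hx => hcov x (h.Nint hx)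
  intro x hx
  obtain ⟨f, hf⟩ := hcov x hx
  exact Cp_of_cover hmul hL hN hF hf

end Pool.Agent.N165.KM
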