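import Pool.Agent.N165.KM.Core

/-!
# Finiteness of homomorphisms from finite groups, up to conjugation

The kernel of the action contains a normal divisible abelian group with finite torsion groups,
with finite index.
-/

set_option autoImplicit false

namespace Pool.Agent.N165.KM

open Pool.Agent.Y167

theorem finite_homs {A G : Type} [Group A] [Group G] [Finite G] (s : G → Set A)
    (hs : ∀ g, (s g).Finite) : {φ : G →* A | ∀ g, φ g ∈ s g}.Finite := by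
  refine Set.Finite.of_finite_image (f := fun φ : G →* A => (φ : G → A)) ?_ ?_
  · refine (Set.Finite.pi' hs).subset ?_
    rintro _ ⟨φ, hφ, rfl⟩ g
    exact hφ g
  · intro φ _ ψ _ h
    exact DFunLike.coe_injective h

/-- A cocycle with values in a divisible group can be corrected to take torsion values. -/
theorem correct {A G : Type} [Group A] [Group G] [Fintype G] (T : Subgroup A) [T.Normal]
    (hcomm : ∀ s ∈ T, ∀ t ∈ T, s * t = t * s)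
    (hdiv : ∀ n : ℕ, 0 < n → ∀ t ∈ T, ∃ s ∈ T, s ^ n = t)
    (φ φ₁ : G →* A) (hc : ∀ g, φ g * (φ₁ g)⁻¹ ∈ T) :
    ∃ t ∈ T, ∀ g, t⁻¹ * φ g * t * (φ₁ g)⁻¹ ∈ T ∧
      (t⁻¹ * φ g * t * (φ₁ g)⁻¹) ^ Fintype.card G = 1 := by
  classical
  letI : CommGroup T :=
    { (inferInstance : Group T) with
      mul_comm := fun a b => Subtype.ext (hcomm a.1 a.2 b.1 b.2) }
  let c : G → T := fun g => ⟨φ g * (φ₁ g)⁻¹, hc g⟩
  have hcoc : ∀ g h, c (g * h) = c g * MulAut.conjNormal (φ₁ g) (c h) := by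
    intro g h
    apply Subtype.ext
    show φ (g * h) * (φ₁ (g * h))⁻¹ = (φ g * (φ₁ g)⁻¹) * ((MulAut.conjNormal (φ₁ g) (c h) : T) : A)
    rw [MulAut.conjNormal_apply, map_mul, map_mul]
    show φ g * φ h * (φ₁ g * φ₁ h)⁻¹ = (φ g * (φ₁ g)⁻¹) * (φ₁ g * (φ h * (φ₁ h)⁻¹) * (φ₁ g)⁻¹)
    group
  let s : T := ∏ h, c h
  have hs : ∀ g, s = c g ^ Fintype.card G * MulAut.conjNormal (φ₁ g) s := by
    intro g
    have h1 : s = ∏ h, c (g * h) := (Fintype.prod_equiv (Equiv.mulLeft g) _ _ fun h => rfl).symm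
    refine h1.trans ?_
    simp only [hcoc]
    rw [Finset.prod_mul_distrib, Finset.prod_const, Finset.card_univ, ← map_prod]
  obtain ⟨t, ht, hts⟩ := hdiv (Fintype.card G) Fintype.card_pos s.1 s.2
  refine ⟨t, ht, fun g => ?_⟩
  let t' : T := ⟨t, ht⟩
  have hts' : t' ^ Fintype.card G = s := Subtype.ext hts
  let d : T := t'⁻¹ * c g * MulAut.conjNormal (φ₁ g) t'
  have hd : (d : A) = t⁻¹ * φ g * t * (φ₁ g)⁻¹ := by
    show t⁻¹ * (φ g * (φ₁ g)⁻¹) * ((MulAut.conjNormal (φ₁ g) t' : T) : A) = _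
    rw [MulAut.conjNormal_apply]
    show t⁻¹ * (φ g * (φ₁ g)⁻¹) * (φ₁ g * t * (φ₁ g)⁻¹) = _
    group
  have hdn : d ^ Fintype.card G = 1 := by
    show (t'⁻¹ * c g * MulAut.conjNormal (φ₁ g) t') ^ Fintype.card G = 1
    rw [mul_pow, mul_pow, inv_pow, hts', ← map_pow, hts', mul_assoc, ← hs g]
    exact inv_mul_cancel s
  rw [← hd]
  refine ⟨d.2, ?_⟩
  have := congrArg (Subtype.val) hdn
  exact this

/-- **Finiteness of homomorphisms.** -/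
theorem HomFin.of_divisible {ρ : ℕ} {A : Type} [Group A]
    {pull : A → ((Fin ρ → ℝ) ≃ₗ[ℝ] (Fin ρ → ℝ))}
    (hmul : ∀ f g, pull (f * g) = pull g * pull f) (T : Subgroup A) (hT : T.Normal)
    (hcomm : ∀ s ∈ T, ∀ t ∈ T, s * t = t * s)
    (hdiv : ∀ n : ℕ, 0 < n → ∀ t ∈ T, ∃ s ∈ T, s ^ n = t)
    (htors : ∀ n : ℕ, 0 < n → {t | t ∈ T ∧ t ^ n = 1}.Finite)
    (hpull : ∀ t ∈ T, pull t = 1)
    (hindex : ∃ R : Finset A, ∀ k, pull k = 1 → ∃ r ∈ R, r⁻¹ * k ∈ T) : HomFin pull := by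
  classical
  intro G _ _ ψ
  have : Fintype G := Fintype.ofFinite G
  obtain ⟨R₀, hR₀⟩ := hindex
  by_cases hex : ∃ φ₀ : G →* A, ∀ g, pull (φ₀ g) = ψ g
  swap
  · exact ⟨∅, Set.finite_empty, fun φ hφ => absurd ⟨φ, hφ⟩ hex⟩
  obtain ⟨φ₀, hφ₀⟩ := hex
  have hK : ∀ φ : G →* A, (∀ g, pull (φ g) = ψ g) → ∀ g, ∃ r ∈ R₀, r⁻¹ * (φ g * (φ₀ g)⁻¹) ∈ T := by
    intro φ hφ g
    apply hR₀
    rw [hmul, pull_inv hmul, hφ, hφ₀, inv_mul_cancel]
  -- types of homomorphisms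
  let Ty : (G → R₀) → (G →* A) → Prop := fun τ φ => ∀ g, (τ g : A)⁻¹ * (φ g * (φ₀ g)⁻¹) ∈ T
  have hTy : ∀ φ : G →* A, (∀ g, pull (φ g) = ψ g) → ∃ τ, Ty τ φ := by
    intro φ hφ
    choose r hr hrT using hK φ hφ
    exact ⟨fun g => ⟨r g, hr g⟩, hrT⟩
  have hrep : ∀ τ : G → R₀, ∃ φ₁ : G →* A, (∃ φ, Ty τ φ) → Ty τ φ₁ := by
    intro τ
    by_cases h : ∃ φ, Ty τ φ
    · obtain ⟨φ, hφ⟩ := h
      exact ⟨φ, fun _ => hφ⟩
    · exact ⟨1, fun h' => absurd h' h⟩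
  choose φ₁ hφ₁ using hrep
  have hn : 0 < Fintype.card G := Fintype.card_pos
  refine ⟨⋃ τ : G → R₀, {φ : G →* A | ∀ g, φ g ∈ (fun t => t * φ₁ τ g) ''
    {t | t ∈ T ∧ t ^ Fintype.card G = 1}}, ?_, ?_⟩
  · exact Set.finite_iUnion fun τ => finite_homs _ fun g => (htors _ hn).image _
  · intro φ hφ
    obtain ⟨τ, hτ⟩ := hTy φ hφ
    have hτ₁ := hφ₁ τ ⟨φ, hτ⟩
    have := hT
    have hc : ∀ g, φ g * (φ₁ τ g)⁻¹ ∈ T := by
      intro g
      have h1 := hτ g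
      have h2 := hτ₁ g
      have h3 := hT.conj_mem _ (T.mul_mem h1 (T.inv_mem h2)) (τ g : A)
      have h4 : (τ g : A) * ((τ g : A)⁻¹ * (φ g * (φ₀ g)⁻¹) *
          ((τ g : A)⁻¹ * (φ₁ τ g * (φ₀ g)⁻¹))⁻¹) * (τ g : A)⁻¹ = φ g * (φ₁ τ g)⁻¹ := by
        group
      rwa [h4] at h3
    obtain ⟨t, ht, hcor⟩ := correct T hcomm hdiv φ (φ₁ τ) hc
    let φ' : G →* A := (MulAut.conj t⁻¹).toMonoidHom.comp φ
    have hφ' : ∀ g, φ' g = t⁻¹ * φ g * t := by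
      intro g
      show MulAut.conj t⁻¹ (φ g) = _
      rw [MulAut.conj_apply, inv_inv]
    refine ⟨φ', ?_, t, hpull t ht, fun g => ?_⟩
    · rw [Set.mem_iUnion]
      refine ⟨τ, fun g => ⟨t⁻¹ * φ g * t * (φ₁ τ g)⁻¹, hcor g, ?_⟩⟩
      simp only [hφ']
      group
    · rw [hφ']
      group

end Pool.Agent.N165.KM
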