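import Pool.Agent.N165.KM.Contract

/-!
# Fundamental domains pass to targets of birational contractions (movable cones)
-/

set_option autoImplicit false

namespace Pool.Agent.N165.KM

open Pool.Agent.Y167 Pool.Agent.Y167.CData Topology

theorem exists_lower {α : Type*} (T : Finset α) (c : α → ℝ) (hc : ∀ s ∈ T, 0 < c s) :
    ∃ ε : ℝ, 0 < ε ∧ ∀ s ∈ T, ε ≤ c s := by
  classical
  by_cases hT : T.Nonempty
  · obtain ⟨s, hs, hmin⟩ := Finset.exists_min_image T c hT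
    exact ⟨c s, hc s hs, hmin⟩
  · rw [Finset.not_nonempty_iff_eq_empty] at hT
    subst hT
    exact ⟨1, one_pos, by simp⟩

/-- **Push-forward.** -/
theorem push {ρ ρ' : ℕ} {A A' : Type} [Group A] [Group A']
    {pull : A → ((Fin ρ → ℝ) ≃ₗ[ℝ] (Fin ρ → ℝ))}
    {pull' : A' → ((Fin ρ' → ℝ) ≃ₗ[ℝ] (Fin ρ' → ℝ))}
    {C Nf : Set (Fin ρ → ℝ)} {C' Nf' : Set (Fin ρ' → ℝ)}
    (h : Sandwich C Nf) (h' : Sandwich C' Nf')
    (hmul : ∀ f g, pull (f * g) = pull g * pull f)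
    (hmul' : ∀ f g, pull' (f * g) = pull' g * pull' f)
    (hL : ∀ f, ∀ x ∈ IntL ρ, pull f x ∈ IntL ρ) (hN : ∀ f, ∀ x ∈ Nf, pull f x ∈ Nf)
    (hL' : ∀ f, ∀ x ∈ IntL ρ', pull' f x ∈ IntL ρ') (hN' : ∀ f, ∀ x ∈ Nf', pull' f x ∈ Nf')
    (down : (Fin ρ → ℝ) →ₗ[ℝ] (Fin ρ' → ℝ))
    (hdownL : ∀ x ∈ IntL ρ, down x ∈ IntL ρ') (hdownN : ∀ x ∈ Nf, down x ∈ Nf')
    (hlift : ∀ y ∈ Nf', ∃ x ∈ Nf, down x = y)
    (E : Set (Fin ρ → ℝ)) (hElift : ∀ y ∈ interior C', ∃ x ∈ Nf, x ∈ E ∧ down x = y)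
    (hEface : ∀ x ∈ Nf, ∀ w ∈ Nf, x ∈ E → (∃ ε : ℝ, 0 < ε ∧ x - ε • w ∈ Nf) →
      (∃ ε : ℝ, 0 < ε ∧ w - ε • x ∈ Nf) → w ∈ E)
    (hEdesc : ∀ f : A, (∃ x ∈ Nf, x ∈ E ∧ pull f x ∈ E) →
      ∃ f' : A', ∀ x, down (pull f x) = pull' f' (down x))
    (hfd : HasFD pull Nf) : HasFD pull' Nf' := by
  classical
  obtain ⟨S, hS, hcov⟩ := HasFD.cover hmul hfd
  have hNz : (0 : Fin ρ → ℝ) ∈ Nf := cone_mem_Nf h (fun a ha => (hS a ha).2) (zero_mem_cone S)
  let good : A → Finset (Fin ρ → ℝ) → Prop := fun g T => pull g (∑ s ∈ T, s) ∈ E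
  have hrep : ∀ T : Finset (Fin ρ → ℝ), (∃ g, good g T) → ∃ g, good g T := fun T hT => hT
  choose! rep hrep using hrep
  let F' : Finset (Fin ρ' → ℝ) := S.powerset.biUnion fun T =>
    T.image (down ∘ₗ (pull (rep T) : (Fin ρ → ℝ) →ₗ[ℝ] (Fin ρ → ℝ)))
  have hF' : ∀ a ∈ F', a ∈ IntL ρ' ∧ a ∈ Nf' := by
    intro a ha
    obtain ⟨T, hT, h1⟩ := Finset.mem_biUnion.1 ha
    obtain ⟨s, hs, rfl⟩ := Finset.mem_image.1 h1
    have hsS := Finset.mem_powerset.1 hT hs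
    exact ⟨hdownL _ (hL _ _ (hS s hsS).1), hdownN _ (hN _ _ (hS s hsS).2)⟩
  refine HasFD.of_cover h' hmul' hL' hN' ?_ F' hF' ?_
  · intro y hy
    obtain ⟨x, hx, rfl⟩ := hlift y hy
    obtain ⟨f, hf⟩ := hcov x hx
    obtain ⟨T, hT, hxT⟩ := Cp_of_cover hmul hL hN hS hf
    refine ⟨T.image down, ?_, cone_image down hxT⟩
    intro a ha
    obtain ⟨b, hb, rfl⟩ := Finset.mem_image.1 ha
    exact ⟨hdownL _ (hT b hb).1, hdownN _ (hT b hb).2⟩
  · intro y hy
    obtain ⟨x, hx, hxE, rfl⟩ := hElift y hy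
    obtain ⟨f, c, hc, hfc⟩ := hcov x hx
    have hxg : x = pull f⁻¹ (∑ a ∈ S, c a • a) := by rw [← hfc, pull_inv_apply hmul]
    set g := f⁻¹ with hg
    set T : Finset (Fin ρ → ℝ) := S.filter (fun s => 0 < c s) with hT
    have hTS : T ∈ S.powerset := Finset.mem_powerset.2 (Finset.filter_subset _ _)
    have hyT : ∑ a ∈ S, c a • a = ∑ a ∈ T, c a • a := by
      rw [hT, Finset.sum_filter]
      refine Finset.sum_congr rfl fun a _ => ?_
      split_ifs with h0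
      · rfl
      · have : c a = 0 := le_antisymm (not_lt.1 h0) (hc a)
        rw [this, zero_smul]
    rw [hyT] at hxg
    have hcomb : ∀ d : (Fin ρ → ℝ) → ℝ, (∀ s ∈ T, 0 ≤ d s) → ∑ s ∈ T, d s • s ∈ Nf := by
      intro d hd
      refine Finset.sum_induction _ (· ∈ Nf) (fun a b ha hb => h.Nadd a ha b hb) hNz ?_
      intro s hs
      exact h.Nsmul _ (hd s hs) _ (hS s (Finset.mem_filter.1 hs).1).2
    have hgood : good g T := by
      refine hEface x hx _ ?_ hxE ?_ ?_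
      · apply hN
        have := hcomb (fun _ => 1) (fun _ _ => zero_le_one)
        simpa only [one_smul] using this
      · obtain ⟨ε, hε, hεc⟩ := exists_lower T c fun s hs => (Finset.mem_filter.1 hs).2
        refine ⟨ε, hε, ?_⟩
        have h1 : x - ε • pull g (∑ s ∈ T, s) = pull g (∑ s ∈ T, (c s - ε) • s) := by
          rw [hxg, ← map_smul, ← map_sub, Finset.smul_sum, ← Finset.sum_sub_distrib]
          congr 1
          exact Finset.sum_congr rfl fun s _ => by rw [sub_smul]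
        rw [h1]
        exact hN _ _ (hcomb _ fun s hs => sub_nonneg.2 (hεc s hs))
      · set M : ℝ := ∑ a ∈ S, c a + 1 with hM
        have hM0 : 0 < M := by
          have : 0 ≤ ∑ a ∈ S, c a := Finset.sum_nonneg fun a _ => hc a
          linarith
        have hcM : ∀ a ∈ S, c a ≤ M := by
          intro a ha
          have := Finset.single_le_sum (f := c) (fun b _ => hc b) ha
          linarith
        refine ⟨M⁻¹, inv_pos.2 hM0, ?_⟩
        have h1 : pull g (∑ s ∈ T, s) - M⁻¹ • x = pull g (∑ s ∈ T, (1 - M⁻¹ * c s) • s) := by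
          rw [hxg, ← map_smul, ← map_sub, Finset.smul_sum, ← Finset.sum_sub_distrib]
          congr 1
          exact Finset.sum_congr rfl fun s _ => by rw [sub_smul, one_smul, smul_smul]
        rw [h1]
        refine hN _ _ (hcomb _ fun s hs => ?_)
        rw [sub_nonneg, inv_mul_le_iff₀ hM0, mul_one]
        exact hcM s (Finset.mem_filter.1 hs).1
    have hgood₀ := hrep T ⟨g, hgood⟩
    have hpN : pull (rep T) (∑ s ∈ T, s) ∈ Nf := by
      apply hN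
      have := hcomb (fun _ => 1) (fun _ _ => zero_le_one)
      simpa only [one_smul] using this
    have hcmp : ∀ v, pull ((rep T)⁻¹ * g) (pull (rep T) v) = pull g v := by
      intro v
      rw [hmul]
      show pull g (pull (rep T)⁻¹ (pull (rep T) v)) = _
      rw [pull_inv_apply hmul]
    obtain ⟨h₁, hh₁⟩ := hEdesc ((rep T)⁻¹ * g) ⟨_, hpN, hgood₀, by rw [hcmp]; exact hgood⟩
    refine ⟨h₁⁻¹, ?_⟩
    have h5 : down x = pull' h₁ (down (pull (rep T) (∑ a ∈ T, c a • a))) := by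
      rw [← hh₁, hcmp, ← hxg]
    rw [h5, pull_inv_apply hmul']
    have h6 : ∑ a ∈ T, c a • a ∈ cone T :=
      mem_cone_of_sum T (fun a => a) c (fun i hi => hi) (fun i _ => hc i)
    have h7 := cone_image (down ∘ₗ (pull (rep T) : (Fin ρ → ℝ) →ₗ[ℝ] (Fin ρ → ℝ))) h6
    exact cone_mono (Finset.subset_biUnion_of_mem (fun T => T.image
      (down ∘ₗ (pull (rep T) : (Fin ρ → ℝ) →ₗ[ℝ] (Fin ρ → ℝ)))) hTS) h7

end Pool.Agent.N165.KM
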